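import Pool.Agent.H45.NF.Targets
import Pool.Agent.H65.HD.SC

/-!
# MP_e37c09_lc: module FD, the theorem of Fodor in two variables
-/

set_option autoImplicit false

open Ordinal Cardinal Order Set
open scoped ZFSet

universe u

namespace Pool.Agent.H65.NF

open _root_.HD _root_.HD.NF
open Pool.Agent.H33.HD.RF (lim_of_cof)
open Pool.Agent.H65.HD (sclub null_diag null_clb clb_inter clb_lp clb_down clb_univ)

theorem pf_fd : T_FD.{u} := by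
  intro M N α X S T _ _ _ hα hX hT
  by_contra hcon
  have hlim := lim_of_cof hα
  obtain ⟨C, hC, hC2⟩ := null_clb hcon
  obtain ⟨B, s, hB, hB1, hs, hs2⟩ := sclub hlim
  have h3 := null_diag (ν := M.ord) hα hs hs2
    (fun b => {g | b ∈ C ∧ b ∈ S ∧ Cf N.ord b ∧ g ∈ X ∧ T g b}) (fun b hb hn => by
      by_cases hb' : b ∈ C ∧ b ∈ S ∧ Cf N.ord b
      · exact hC2 b (hB1 b hb) hb'.1 ⟨hb'.2.1, hn.mono fun g _ hg _ => hg.2.2.2⟩ hb'.2.2
      · obtain ⟨g, _, _, hg, _⟩ := hn _ (clb_univ hlim)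
        exact hb' ⟨hg.1, hg.2.1, hg.2.2.1⟩)
  obtain ⟨G, hG, hG2⟩ := null_clb h3
  have hBC : Clb α (B ∩ C) := clb_inter hα hB hC
  obtain ⟨g, hg, hgm, hgX, hcf⟩ := hX _ (clb_inter hα hG (clb_lp hα hBC))
  obtain ⟨b, hbg, hbBC, ⟨hbS, hbT⟩, hbN⟩ := hT g hgX hg hcf _ (clb_down hBC hg hgm.2)
  exact hG2 g hg hgm.1 ⟨b, hbBC.1, hbg, hbBC.2, hbS, hbN, hgX, hbT⟩ hcf

end Pool.Agent.H65.NF
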