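import Pool.Agent.H45.NF.Targets
import Pool.Agent.H7.HD.RG

/-!
# MP_e37c09_lc: module NF2, the theorem for strongly compact cardinals
-/

set_option autoImplicit false

open Ordinal Cardinal Order Set
open scoped ZFSet

universe u

namespace Pool.Agent.H65.NF

open _root_.HD _root_.HD.NF
open Pool.Agent.H33.HD.RF (lim_of_cof)

theorem rf2 {D : Cardinal.{u}} {α : Ordinal.{u}} (hD : StrComp D) (hDα : D < α.cof) :
    Rf2 D α := by
  intro A B hA hB
  have h2 : (2 : Ordinal.{u}) < D.ord := by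
    have h1 : (2 : Ordinal.{u}) < ω := by
      exact_mod_cast Ordinal.natCast_lt_omega0 2
    refine h1.trans_le ?_
    rw [← Cardinal.ord_aleph0]
    exact Cardinal.ord_le_ord.2 hD.2.1.le
  obtain ⟨N, hN, hND, h3, h4⟩ := Pool.Agent.H7.HD.RG.rg hD hDα h2 (fun _ => ℵ₀)
    (fun i => if i = 0 then A else B) (fun i _ => ⟨isRegular_aleph0, hD.2.1, by
      by_cases h : i = 0
      · simp only [h, if_true]
        exact hA
      · simp only [h, if_false]
        exact hB⟩)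
  have h10 : ¬ ((1 : Ordinal.{u}) = 0) := one_ne_zero
  refine ⟨N, hN, h3 0 (by simp), hND, h4.mono fun ν _ hν _ => ⟨?_, ?_⟩⟩
  · have := hν 0 (by simp)
    simp only [if_true] at this
    exact this
  · have := hν 1 (by simp)
    simp only [h10, if_false] at this
    exact this

theorem pf_nf2 (hNN : T_NN.{u}) : T_NF2.{u} := by
  intro D K₀ hD hDK₀ hS θ hcf
  have h0 : ℵ₀ < θ.cof := hS.2.1.trans hcf
  have hDθ : D < θ.cof := hDK₀.trans hcf
  have hSV : T_SV.{u} := Pool.Agent.H59.HD.SV.sv Pool.Agent.H74.HD.SW.sw Pool.Agent.H48.HD.SR.sr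
    (Pool.Agent.H33.HD.NA.na HD.All.vg) HD.All.ub
  have hlim := Pool.Agent.H7.HD.OM.om HD.All.p2 K₀ hS
  have hNS : ∀ M : Cardinal.{u}, M.IsRegular → M < D → NS K₀.ord M.ord θ := by
    intro M hM hMD
    by_contra h
    obtain ⟨hK₀, -, κ, hκ0, hκK, -, hno⟩ := hS
    exact hno (hSV D K₀ M θ hD hK₀ hDK₀ hM hMD (hDK₀.trans hcf).le h κ hκ0 hκK)
  obtain ⟨en, hen⟩ := HD.All.en.{u}
  refine hNN en D θ ⟨hen, hD.2.1, hDθ, fun M hM hMD => ?_, rf2 hD hDθ⟩
  refine Pool.Agent.H7.HD.AT.at_ en hen M K₀.ord θ h0 (by rw [Cardinal.card_ord]; exact hcf)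
    (fun τ hτ => ?_) (hNS M hM hMD)
  obtain ⟨β, hβ, hpow⟩ := hlim τ hτ
  exact ⟨β, (Cardinal.lt_ord.1 hβ).trans hcf, hpow⟩

end Pool.Agent.H65.NF
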