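import Pool.Agent.H45.NF.Targets

/-!
# MP_e37c09_lc: module SK, one of the classes is large
-/

set_option autoImplicit false

open Ordinal Cardinal Order Set
open scoped ZFSet

universe u

namespace Pool.Agent.H65.NF

open _root_.HD _root_.HD.NF
open Pool.Agent.H33.HD.RF (lim_of_cof)

theorem not_pos_empty {μ α : Ordinal.{u}} (hα : IsSuccLimit α) {X : Set Ordinal.{u}}
    (hX : ∀ x, x ∉ X) : ¬ Pos μ α X := by
  intro h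
  obtain ⟨g, _, _, hg, _⟩ := h univ
    ⟨fun a ha => ⟨succ a, hα.succ_lt ha, lt_succ a, mem_univ _⟩, fun _ _ _ _ => mem_univ _⟩
  exact hX g hg

theorem sp_symm {en : Ordinal.{u} → ZFSet.{u}} {μ : Cardinal.{u}} {c₀ γ ξ ξ' : Ordinal.{u}}
    (h : Sp en μ c₀ γ ξ ξ') : Sp en μ c₀ γ ξ' ξ := by
  obtain ⟨x, h1, h2, h3⟩ := h
  exact ⟨x, h1, h2, fun h => h3 h.symm⟩

theorem sp_trans {en : Ordinal.{u} → ZFSet.{u}} {μ : Cardinal.{u}} {c₀ γ ξ ξ' ξ'' : Ordinal.{u}}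
    (h : Sp en μ c₀ γ ξ ξ'') : Sp en μ c₀ γ ξ ξ' ∨ Sp en μ c₀ γ ξ' ξ'' := by
  obtain ⟨x, h1, h2, h3⟩ := h
  by_cases h4 : ξ.toZFSet ∈ x ↔ ξ'.toZFSet ∈ x
  · exact Or.inr ⟨x, h1, h2, fun h => h3 (h4.trans h)⟩
  · exact Or.inl ⟨x, h1, h2, h4⟩

theorem pf_sk (hSD : T_SD.{u}) (hSC : _root_.HD.NF.T_SC.{u}) : T_SK.{u} := by
  intro en M μ α c₀ c' h
  have hVA : T_VA.{u} := HD.All.va
  have hlim := lim_of_cof h.unc
  have hrefl : ∀ x, Eqv en μ c₀ M α c' x x := fun x => by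
    refine not_pos_empty hlim ?_
    rintro g ⟨_, x0, _, _, h3⟩
    exact h3 Iff.rfl
  have hsymm : ∀ x y, Eqv en μ c₀ M α c' x y → Eqv en μ c₀ M α c' y x := fun x y hxy hp =>
    hxy (hp.mono fun g _ hg _ => ⟨hg.1, sp_symm hg.2⟩)
  set R : Set Ordinal.{u} := {x | x ∈ E en c₀ ∧ ∀ x' < x, x' ∈ E en c₀ →
    ¬ Eqv en μ c₀ M α c' x x'} with hR
  obtain ⟨τ, hτ, e, he⟩ := hSC en M μ α c₀ c' h R (by
    intro ξ hξ ξ' hξ' hne heq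
    rcases lt_or_gt_of_ne hne with hlt | hlt
    · exact hξ'.2 ξ hlt hξ.1 (hsymm _ _ heq)
    · exact hξ.2 ξ' hlt hξ'.1 heq)
  have hcard : τ.card < α.cof := (Cardinal.lt_ord.1 hτ).trans h.hμ
  have hcov : ∀ x ∈ E en c₀, ∃ a < τ, Eqv en μ c₀ M α c' x (e a) := by
    intro x hx
    have hne : {x' | x' ∈ E en c₀ ∧ Eqv en μ c₀ M α c' x x'}.Nonempty := ⟨x, hx, hrefl x⟩
    obtain ⟨m, ⟨hm1, hm2⟩, hmin⟩ := WellFounded.has_min (wellFounded_lt (α := Ordinal.{u})) _ hne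
    have hmR : m ∈ R := by
      refine ⟨hm1, fun x' hx' hx'c heq => hmin x' ⟨hx'c, ?_⟩ hx'⟩
      refine fun hp => null_union hVA h.unc hm2 heq (hp.mono fun g _ hg _ => ?_)
      rcases sp_trans (ξ' := m) hg.2 with h1 | h1
      · exact Or.inl ⟨hg.1, h1⟩
      · exact Or.inr ⟨hg.1, h1⟩
    obtain ⟨a, ha, rfl⟩ := he m hmR
    exact ⟨a, ha, hm2⟩
  have hpos : ∃ a < τ, Pos w0 α {x | x ∈ E en c₀ ∧ Eqv en μ c₀ M α c' x (e a)} := by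
    by_contra hcon
    push Not at hcon
    refine hVA w0 α h.unc τ hcard
      (fun a => {x | x ∈ E en c₀ ∧ Eqv en μ c₀ M α c' x (e a)}) hcon (h.ac.pos.mono ?_)
    intro x _ hx _
    obtain ⟨a, ha, h1⟩ := hcov x hx
    exact ⟨a, ha, hx, h1⟩
  obtain ⟨a, ha, hp⟩ := hpos
  obtain ⟨-, -, hE3, -⟩ := HD.All.ea en h.hen
  have hDS : DS {x | Eqv en μ c₀ M α c' x (e a)} :=
    DO.sub (R := fun y w => Eqv en μ c₀ M α c' (w 0) y) (e a)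
      (DO.s2 (X := fun x y => Eqv en μ c₀ M α c' x y) ((hSD en h.hen μ c₀).2.2 M α c') 1 0)
  obtain ⟨x1, hx1⟩ := hE3 _ hDS α
  refine ⟨e a, fun hn => h.ac.ult x1 ⟨hp.mono fun x hx hxm _ => ⟨hxm.1, ?_⟩,
    hn.mono fun x hx hxm _ => ⟨hxm.1, fun hxx => ?_⟩⟩⟩
  · rw [hx1]
    exact ⟨hxm.2, hx⟩
  · rw [hx1] at hxx
    exact hxm.2 hxx.1

end Pool.Agent.H65.NF
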