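import Pool.Agent.H45.NF.Targets

/-!
# MP_e37c09_lc: module SX, the final contradiction of the decision lemma
-/

set_option autoImplicit false

open Ordinal Cardinal Order Set
open scoped ZFSet

universe u

namespace Pool.Agent.H65.NF

open _root_.HD _root_.HD.NF
open Pool.Agent.H33.HD.RF (lim_of_cof)

theorem pf_sx (hFD : T_FD.{u}) : T_SX.{u} := by
  intro en M μ α c₀ c' h r hnull
  have hVA : T_VA.{u} := HD.All.va
  set Y : Set Ordinal.{u} := {ξ | ξ ∈ E en c₀ ∧ ¬ Eqv en μ c₀ M α c' ξ r} with hY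
  have h1 : ¬ Pos M.ord α {g | Pos w0 g Y} := HD.All.wa w0 M.ord α h.unc Y hnull
  set Z : Ordinal.{u} → Set Ordinal.{u} := fun g =>
    {ξ | ξ ∈ {ξ | Eqv en μ c₀ M α c' ξ r} ∧ Sp en μ c₀ g ξ r} with hZ
  have h2 : ¬ Pos M.ord α {g | g ∈ E en c' ∧ Pos w0 g (Z g)} := by
    intro hpos
    have hw : (ℵ₀ : Cardinal.{u}).IsRegular := isRegular_aleph0
    have h3 := hFD M ℵ₀ α {g | g ∈ E en c' ∧ Pos w0 g (Z g)} {ξ | Eqv en μ c₀ M α c' ξ r}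
      (fun g ξ => Sp en μ c₀ g ξ r) h.mreg hw h.munc h.unc hpos (fun g hg _ _ => hg.2)
    obtain ⟨ξ, _, _, ⟨hξ1, hξ2⟩, _⟩ := h3 univ
      ⟨fun a ha => ⟨succ a, (lim_of_cof h.unc).succ_lt ha, lt_succ a, mem_univ _⟩,
        fun _ _ _ _ => mem_univ _⟩
    exact hξ1 (hξ2.mono fun g _ hg _ => ⟨hg.1.1, hg.2⟩)
  have h4 := pos_diff hVA h.unc h.ac'.pos (null_union hVA h.unc h1 h2)
  obtain ⟨g, _, _, ⟨hgc, hg⟩, hcf⟩ := h4 univ
      ⟨fun a ha => ⟨succ a, (lim_of_cof h.unc).succ_lt ha, lt_succ a, mem_univ _⟩,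
        fun _ _ _ _ => mem_univ _⟩
  have hgM : g.cof = M := Cardinal.ord_injective hcf
  have hg1 : ¬ Pos w0 g Y := fun h' => hg (Or.inl h')
  have hg2 : ¬ Pos w0 g (Z g) := fun h' => hg (Or.inr ⟨hgc, h'⟩)
  have hg3 := null_union hVA (by rw [hgM]; exact h.munc) hg1 hg2
  have hmem : Fa en μ c₀ g (mn en μ c₀ g) := csInf_mem (s := {c | Fa en μ c₀ g c}) (h.hf g hgc)
  obtain ⟨-, x0, hx0, hs1, hs2⟩ := hmem
  by_cases hr : r.toZFSet ∈ x0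
  · refine hg3 (hs2.mono fun ξ _ hξ _ => ?_)
    by_cases he : Eqv en μ c₀ M α c' ξ r
    · exact Or.inr ⟨he, x0, hx0, ⟨hs1, hs2⟩, fun hi => hξ.2 (hi.2 hr)⟩
    · exact Or.inl ⟨hξ.1, he⟩
  · refine hg3 (hs1.mono fun ξ _ hξ _ => ?_)
    by_cases he : Eqv en μ c₀ M α c' ξ r
    · exact Or.inr ⟨he, x0, hx0, ⟨hs1, hs2⟩, fun hi => hr (hi.1 hξ.2)⟩
    · exact Or.inl ⟨hξ.1, he⟩

end Pool.Agent.H65.NF
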